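import Pool.Agent.Helper45.CF.GoalsC
import Pool.Agent.Helper19.CAR.SYS1
import Pool.Agent.Helper32.CAR.SYS

/-!
# Project CF, packet CF2-GREC: the recursion over a unital C*-algebra with central scalars

Adapted from helper32's CAR/SYS.lean, helper19's CAR/SYS1.lean and helper37's CF/SYSO.lean.
-/

set_option autoImplicit false

open Filter Topology
open scoped ComplexOrder

namespace Pool.Agent.Helper24.CF2.GREC

open Pool.Agent.Helper34.CAR Pool.Agent.Helper45.CF Pool.Agent.Helper19.CAR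

section one

variable {S C B Z : Type} [Fintype S] [DecidableEq S] [Fintype C] [DecidableEq C] [CStarAlgebra B]
  [CStarAlgebra Z]

theorem zm_apply (ζ : Z →⋆ₐ[ℂ] B) (x : S → S → Z) (p q : S) : zm ζ x p q = ζ (x p q) := rfl

theorem kapF_zm (ζ : Z →⋆ₐ[ℂ] B) (K : B →⋆ₐ[ℂ] Mt C B)
    (hK : ∀ z, K (ζ z) = Mt.of fun x y => if x = y then ζ z else 0) (x : S → S → Z) :
    kapF K (zm ζ x) = zm ζ (xt (Equiv.refl (S × C)) x) := by
  ext p q
  rw [kapF_apply, zm_apply, zm_apply, hK, Mt.of_apply]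
  unfold xt
  by_cases h : p.2 = q.2
  · rw [if_pos h]
    exact congrArg ζ (if_pos h).symm
  · rw [if_neg h]
    refine ((map_zero ζ).symm.trans (congrArg ζ (if_neg h).symm))

theorem zm_comm (ζ : Z →⋆ₐ[ℂ] B) (hc : ∀ z b, ζ z * b = b * ζ z) (w : Mt C B) (x : S → S → Z) :
    (zm ζ (xt (Equiv.refl (S × C)) x) : Mt (S × C) B) * oW w =
      oW w * zm ζ (xt (Equiv.refl (S × C)) x) := by
  ext p q
  rw [mul_oW_apply, oW_mul_apply, Finset.sum_eq_single p.2, Finset.sum_eq_single q.2]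
  · rw [zm_apply, zm_apply]
    have h1 : xt (Equiv.refl (S × C)) x p (q.1, p.2) = x p.1 q.1 := if_pos rfl
    have h2 : xt (Equiv.refl (S × C)) x (p.1, q.2) q = x p.1 q.1 := if_pos rfl
    rw [h1, h2]
    exact hc _ _
  · intro c _ hc'
    rw [zm_apply]
    have h1 : xt (Equiv.refl (S × C)) x (p.1, c) q = 0 := if_neg hc'
    rw [h1, map_zero, mul_zero]
  · intro h
    exact absurd (Finset.mem_univ _) h
  · intro c _ hc'
    rw [zm_apply]
    have h1 : xt (Equiv.refl (S × C)) x p (q.1, c) = 0 := if_neg (Ne.symm hc')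
    rw [h1, map_zero, zero_mul]
  · intro h
    exact absurd (Finset.mem_univ _) h

theorem blocks_zm (ζ : Z →⋆ₐ[ℂ] B) (w : Mt C B) (X : S → S → C → C → Z) (p q : S × C) :
    (star (oW w) * zm ζ (fun x y => X x.1 y.1 x.2 y.2) * oW w : Mt (S × C) B) p q =
      (star w * zm ζ (X p.1 q.1) * w : Mt C B) p.2 q.2 := by
  rw [mul_oW_apply, Mt.mul_apply]
  refine Finset.sum_congr rfl fun c _ => ?_
  rw [oW_star, oW_mul_apply, Mt.mul_apply]
  rfl

end one

section recursion

variable {B Z : Type} [CStarAlgebra B] [CStarAlgebra Z] {ζ : Z →⋆ₐ[ℂ] B} {P : Type 1}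
  {C : P → Type} [∀ p, Fintype (C p)] [∀ p, DecidableEq (C p)]
  {K : ℕ → ∀ p, B →⋆ₐ[ℂ] Mt (C p) B}

/-- The hypothesis on the steps. -/
def HSt (ζ : Z →⋆ₐ[ℂ] B) (C : P → Type) [∀ p, Fintype (C p)] [∀ p, DecidableEq (C p)]
    (K : ℕ → ∀ p, B →⋆ₐ[ℂ] Mt (C p) B) : Prop :=
  (∀ z b, ζ z * b = b * ζ z) ∧
  (∀ i p z, K i p (ζ z) = Mt.of fun x y => if x = y then ζ z else 0) ∧
  (∀ (i : ℕ) (F : Finset B) (ε : ℝ), 0 < ε → ∃ (p : P) (w : Mt (C p) B), star w * w = 1 ∧
    w * star w = 1 ∧ ∀ b ∈ F, ∃ x : C p → C p → Z, ‖K i p b - star w * zm ζ x * w‖ < ε)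

/-- One step. -/
theorem one_step (hS : HSt ζ C K) (i : ℕ) (S : Type) [Fintype S] [DecidableEq S] (v : Mt S B)
    (hv1 : star v * v = 1) (hv2 : v * star v = 1) (G : Finset (Mt S B)) (ε : ℝ) (hε : 0 < ε) :
    ∃ (p : P) (v' : Mt (S × C p) B), star v' * v' = 1 ∧ v' * star v' = 1 ∧
    (∀ x : S → S → Z, kapF (K i p) (star v * zm ζ x * v) =
      star v' * zm ζ (xt (Equiv.refl (S × C p)) x) * v') ∧
    ∀ g ∈ G, ∃ x' : S × C p → S × C p → Z,
      ‖kapF (K i p) g - star v' * zm ζ x' * v'‖ < ε := by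
  classical
  obtain ⟨hc, hK, hst⟩ := hS
  set n : ℝ := (Fintype.card S : ℝ) with hn
  have hn0 : 0 ≤ n := Nat.cast_nonneg _
  obtain ⟨p, w, h2, h3, h8⟩ := hst i
    (G.biUnion fun g => Finset.univ.image fun p : S × S => (v * g * star v) p.1 p.2)
    (ε / (n ^ 2 + 1)) (by positivity)
  refine ⟨p, oW w * kapH (K i p) v, ?_, ?_, ?_, ?_⟩
  · rw [star_mul, mul_assoc, ← mul_assoc (star (oW w)), oW_star, oW_mul, h2, oW_one, one_mul,
      ← map_star, ← map_mul, hv1, map_one]
  · rw [star_mul, mul_assoc, ← mul_assoc (kapH (K i p) v), ← map_star, ← map_mul, hv2, map_one,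
      one_mul, oW_star, oW_mul, h3, oW_one]
  · intro x
    have e1 : kapF (K i p) (star v * zm ζ x * v) =
        star (kapH (K i p) v) * zm ζ (xt (Equiv.refl (S × C p)) x) * kapH (K i p) v := by
      rw [← kapH_apply, map_mul, map_mul, map_star, kapH_apply (K i p) (zm ζ x),
        kapF_zm ζ (K i p) (hK i p)]
    rw [e1, star_mul]
    have e2 : star (kapH (K i p) v) * star (oW w) * zm ζ (xt (Equiv.refl (S × C p)) x) *
        (oW w * kapH (K i p) v) = star (kapH (K i p) v) *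
          (star (oW w) * (zm ζ (xt (Equiv.refl (S × C p)) x) * oW w)) * kapH (K i p) v := by
      simp only [mul_assoc]
    rw [e2, zm_comm ζ hc, ← mul_assoc (star (oW w)), oW_star, oW_mul, h2, oW_one, one_mul]
  · intro g hg
    have hX : ∀ s t : S, ∃ x : C p → C p → Z,
        ‖K i p ((v * g * star v) s t) - star w * zm ζ x * w‖ < ε / (n ^ 2 + 1) := by
      intro s t
      refine h8 _ ?_
      rw [Finset.mem_biUnion]
      exact ⟨g, hg, Finset.mem_image.2 ⟨(s, t), Finset.mem_univ _, rfl⟩⟩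
    choose X hX using hX
    refine ⟨fun x y => X x.1 y.1 x.2 y.2, ?_⟩
    have hU : kapH (K i p) v ∈ unitary (Mt (S × C p) B) := by
      rw [Unitary.mem_iff, ← map_star, ← map_mul, ← map_mul, hv1, hv2, map_one]
      exact ⟨rfl, rfl⟩
    have e1 : kapF (K i p) g =
        star (kapH (K i p) v) * kapH (K i p) (v * g * star v) * kapH (K i p) v := by
      rw [← kapH_apply, ← map_star, ← map_mul, ← map_mul]
      have : star v * (v * g * star v) * v = (star v * v) * g * (star v * v) := by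
        simp only [mul_assoc]
      rw [this, hv1, one_mul, mul_one]
    have e2 : star (oW w * kapH (K i p) v) * zm ζ (fun x y => X x.1 y.1 x.2 y.2) *
        (oW w * kapH (K i p) v) = star (kapH (K i p) v) *
          (star (oW w) * zm ζ (fun x y => X x.1 y.1 x.2 y.2) * oW w) * kapH (K i p) v := by
      rw [star_mul]
      simp only [mul_assoc]
    rw [e1, e2, ← sub_mul, ← mul_sub]
    have e3 : ‖star (kapH (K i p) v) * (kapH (K i p) (v * g * star v) -
        star (oW w) * zm ζ (fun x y => X x.1 y.1 x.2 y.2) * oW w) * kapH (K i p) v‖ =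
        ‖kapH (K i p) (v * g * star v) -
          star (oW w) * zm ζ (fun x y => X x.1 y.1 x.2 y.2) * oW w‖ := by
      rw [CStarRing.norm_mul_coe_unitary _ (⟨kapH (K i p) v, hU⟩ : unitary (Mt (S × C p) B))]
      exact CStarRing.norm_coe_unitary_mul
        (⟨star (kapH (K i p) v), Unitary.star_mem hU⟩ : unitary (Mt (S × C p) B)) _
    rw [e3]
    have e4 := norm_blocks (kapH (K i p) (v * g * star v) -
        star (oW w) * zm ζ (fun x y => X x.1 y.1 x.2 y.2) * oW w)
        (fun s t => K i p ((v * g * star v) s t) - star w * zm ζ (X s t) * w) (fun x y => by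
          rw [Mt.sub_apply, Mt.sub_apply, blocks_zm]
          rfl)
    refine e4.trans_lt ?_
    have e5 : ∑ s : S, ∑ t : S, ‖K i p ((v * g * star v) s t) - star w * zm ζ (X s t) * w‖ ≤
        ∑ _s : S, ∑ _t : S, ε / (n ^ 2 + 1) :=
      Finset.sum_le_sum fun s _ => Finset.sum_le_sum fun t _ => (hX s t).le
    refine e5.trans_lt ?_
    rw [Finset.sum_const, Finset.sum_const, Finset.card_univ, nsmul_eq_mul, nsmul_eq_mul, ← hn]
    have e6 : n * (n * (ε / (n ^ 2 + 1))) = ε * (n ^ 2 / (n ^ 2 + 1)) := by ring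
    rw [e6]
    have e7 : n ^ 2 / (n ^ 2 + 1) < 1 := by
      rw [div_lt_one (by positivity)]
      linarith
    calc ε * (n ^ 2 / (n ^ 2 + 1)) < ε * 1 := mul_lt_mul_of_pos_left e7 hε
      _ = ε := mul_one ε

/-- The state of the recursion. -/
structure St (B : Type) [CStarAlgebra B] where
  S : Type
  fS : Fintype S
  dS : DecidableEq S
  v : Mt S B
  hv1 : star v * v = 1
  hv2 : v * star v = 1
  G : ℕ → ℕ → Mt S B

instance (σ : St B) : Fintype σ.S := σ.fS
instance (σ : St B) : DecidableEq σ.S := σ.dS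

/-- The finite set of elements at step `i`. -/
noncomputable def St.F (σ : St B) (i : ℕ) : Finset (Mt σ.S B) :=
  open Classical in
  (Finset.range (i + 1) ×ˢ Finset.range (i + 1)).image fun q => σ.G q.1 q.2

theorem St.mem_F (σ : St B) {i j m : ℕ} (hj : j ≤ i) (hm : m ≤ i) : σ.G j m ∈ σ.F i := by
  classical
  unfold St.F
  refine Finset.mem_image.2 ⟨(j, m), ?_, rfl⟩
  rw [Finset.mem_product, Finset.mem_range, Finset.mem_range]
  exact ⟨Nat.lt_succ_of_le hj, Nat.lt_succ_of_le hm⟩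

/-- The data of a step. -/
structure StepD (ζ : Z →⋆ₐ[ℂ] B) (C : P → Type) [∀ p, Fintype (C p)] [∀ p, DecidableEq (C p)]
    (K : ℕ → ∀ p, B →⋆ₐ[ℂ] Mt (C p) B) (σ : St B) (i : ℕ) where
  p : P
  v' : Mt (σ.S × C p) B
  hv1 : star v' * v' = 1
  hv2 : v' * star v' = 1
  comp : ∀ x : σ.S → σ.S → Z, kapF (K i p) (star σ.v * zm ζ x * σ.v) =
    star v' * zm ζ (xt (Equiv.refl (σ.S × C p)) x) * v'
  approx : ∀ g ∈ σ.F i, ∃ x' : σ.S × C p → σ.S × C p → Z,
    ‖kapF (K i p) g - star v' * zm ζ x' * v'‖ < 1 / ((i : ℝ) + 1)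

theorem exists_stepD (hS : HSt ζ C K) (σ : St B) (i : ℕ) : Nonempty (StepD ζ C K σ i) := by
  obtain ⟨p, v', h3, h4, h5, h6⟩ :=
    one_step hS i σ.S σ.v σ.hv1 σ.hv2 (σ.F i) (1 / ((i : ℝ) + 1)) (by positivity)
  exact ⟨⟨p, v', h3, h4, h5, h6⟩⟩

variable [TopologicalSpace.SeparableSpace B]

/-- A dense sequence of matrices. -/
noncomputable def dsq (S : Type) [Fintype S] [DecidableEq S] : ℕ → Mt S B :=
  haveI : TopologicalSpace.SeparableSpace (Mt S B) := Pool.Agent.Helper32.CAR.mt_separable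
  TopologicalSpace.denseSeq (Mt S B)

theorem dsq_dense (S : Type) [Fintype S] [DecidableEq S] : DenseRange (dsq (B := B) S) :=
  haveI : TopologicalSpace.SeparableSpace (Mt S B) := Pool.Agent.Helper32.CAR.mt_separable
  TopologicalSpace.denseRange_denseSeq (Mt S B)

/-- The first state. -/
noncomputable def st0 : St B where
  S := Unit
  fS := inferInstance
  dS := inferInstance
  v := 1
  hv1 := by rw [star_one, one_mul]
  hv2 := by rw [star_one, one_mul]
  G _ m := dsq Unit m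

variable (hS : HSt ζ C K)

/-- The chosen step. -/
noncomputable def stp (σ : St B) (i : ℕ) : StepD ζ C K σ i :=
  Classical.choice (exists_stepD hS σ i)

/-- The next state. -/
noncomputable def nxt (σ : St B) (i : ℕ) (D : StepD ζ C K σ i) : St B where
  S := σ.S × C D.p
  fS := inferInstance
  dS := inferInstance
  v := D.v'
  hv1 := D.hv1
  hv2 := D.hv2
  G j m := if j ≤ i then kapF (K i D.p) (σ.G j m) else dsq (σ.S × C D.p) m

/-- The states. -/
noncomputable def st : ℕ → St B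
  | 0 => st0
  | i + 1 => nxt (st i) i (stp hS (st i) i)

/-- The steps. -/
noncomputable def sd (i : ℕ) : StepD ζ C K (st hS i) i := stp hS (st hS i) i

theorem G_dense (j : ℕ) : DenseRange ((st hS j).G j) := by
  cases j with
  | zero => exact dsq_dense Unit
  | succ j =>
    have h1 : (st hS (j + 1)).G (j + 1) = dsq ((st hS j).S × C (sd hS j).p) := by
      funext m
      exact if_neg (by omega : ¬ j + 1 ≤ j)
    rw [h1]
    exact dsq_dense _

theorem G_succ (i j m : ℕ) (h : j ≤ i) :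
    (st hS (i + 1)).G j m = kapF (K i (sd hS i).p) ((st hS i).G j m) := by
  exact if_pos h

/-- The map of matrices at stage `i`. -/
noncomputable def kp (i : ℕ) (a : Mt (st hS i).S B) : Mt (st hS (i + 1)).S B :=
  kapF (K i (sd hS i).p) a

theorem kp_norm (i : ℕ) (a b : Mt (st hS i).S B) : ‖kp hS i a - kp hS i b‖ ≤ ‖a - b‖ := by
  have h1 : kp hS i a - kp hS i b = kapH (K i (sd hS i).p) (a - b) :=
    (map_sub (kapH (S := (st hS i).S) (K i (sd hS i).p)) a b).symm
  rw [h1]
  exact NonUnitalStarAlgHom.norm_apply_le (kapH (S := (st hS i).S) (K i (sd hS i).p)) (a - b)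

theorem main (j : ℕ) (a : ∀ d, Mt (st hS (j + d)).S B)
    (ha : ∀ d, a (d + 1) = kp hS (j + d) (a d)) (ε : ℝ) (hε : 0 < ε) :
    ∃ (d : ℕ) (x : (st hS (j + d)).S → (st hS (j + d)).S → Z),
      ‖a d - star (st hS (j + d)).v * zm ζ x * (st hS (j + d)).v‖ < ε := by
  have hd : ∃ m : ℕ, ‖a 0 - (st hS j).G j m‖ < ε / 2 := by
    have h1 := (G_dense hS j).exists_dist_lt (show Mt (st hS j).S B from a 0) (half_pos hε)
    obtain ⟨m, hm⟩ := h1
    exact ⟨m, by rw [← dist_eq_norm]; exact hm⟩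
  obtain ⟨m, hm⟩ := hd
  have hclose : ∀ d, ‖a d - (st hS (j + d)).G j m‖ < ε / 2 := by
    intro d
    induction d with
    | zero => exact hm
    | succ d ih =>
      have h1 : (st hS (j + (d + 1))).G j m = kp hS (j + d) ((st hS (j + d)).G j m) :=
        G_succ hS (j + d) j m (by omega)
      rw [ha d, h1]
      exact (kp_norm hS (j + d) _ _).trans_lt ih
  obtain ⟨n, hn⟩ := exists_nat_one_div_lt (half_pos hε)
  set d : ℕ := m + n with hdd
  have hF := (st hS (j + d)).mem_F (i := j + d) (j := j) (m := m) (by omega) (by omega)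
  obtain ⟨x, hx⟩ := (sd hS (j + d)).approx _ hF
  let x1 : (st hS (j + (d + 1))).S → (st hS (j + (d + 1))).S → Z := x
  refine ⟨d + 1, x1, ?_⟩
  have h3 : (1 : ℝ) / (((j + d : ℕ) : ℝ) + 1) ≤ 1 / ((n : ℝ) + 1) := by
    refine one_div_le_one_div_of_le (by positivity) ?_
    have : (n : ℝ) ≤ ((j + d : ℕ) : ℝ) := by
      exact_mod_cast (by omega : n ≤ j + d)
    linarith
  have h2 : (st hS (j + (d + 1))).G j m =
      kapF (K (j + d) (sd hS (j + d)).p) ((st hS (j + d)).G j m) :=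
    G_succ hS (j + d) j m (by omega)
  have h4 : ‖(st hS (j + (d + 1))).G j m -
      star (st hS (j + (d + 1))).v * zm ζ x1 * (st hS (j + (d + 1))).v‖ < ε / 2 := by
    have h5 : ‖kapF (K (j + d) (sd hS (j + d)).p) ((st hS (j + d)).G j m) -
      star (sd hS (j + d)).v' * zm ζ x * (sd hS (j + d)).v'‖ < ε / 2 :=
      lt_of_lt_of_le hx (h3.trans hn.le)
    rw [h2]
    exact h5
  have h6 := norm_sub_le_norm_sub_add_norm_sub (a (d + 1)) ((st hS (j + (d + 1))).G j m)
    (star (st hS (j + (d + 1))).v * zm ζ x1 * (st hS (j + (d + 1))).v)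
  calc _ ≤ _ := h6
    _ < ε := by linarith [hclose (d + 1)]

end recursion

/-- **Packet CF2-GREC.** -/
theorem t : S_GREC := by
  intro B Z _ _ _ ζ P C _ _ K h1 h2 h3
  have hS : HSt ζ C K := ⟨h1, h2, h3⟩
  refine ⟨fun i => (sd hS i).p, fun i => (st hS i).S, fun i => (st hS i).fS, fun i => (st hS i).dS,
    (), fun i => Equiv.refl ((st hS i).S × C (sd hS i).p), fun i => (st hS i).v, fun _ => rfl,
    fun i => ⟨(st hS i).hv1, (st hS i).hv2⟩, ?_, ?_⟩
  · intro i x a c
    exact congrArg (fun M : Mt (st hS (i + 1)).S B => M a c) ((sd hS i).comp x)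
  · intro j a ha ε hε
    refine main hS j a (fun d => ?_) ε hε
    exact Mt.ext fun x y => ha d x y

end Pool.Agent.Helper24.CF2.GREC
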